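import Mathlib

/-!
# Suffix-closed selection languages are not captured by selection automata with `n` states

For every `n` there is a language generated by an internal contextual grammar with suffix-closed
regular selection languages which is not generated by any internal contextual grammar whose
selection languages are accepted by deterministic finite automata with at most `n` states.

The language. Letters `0, ..., 5`; put `D = n!`, `p = D + 1`, `M = n + D`. The axiom is `0`. The
context `(4, 5)` may be inserted anywhere (selection language `{λ}`); the context `(1, 3)` has the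
selection language `4* ∪ 0 (4^p)*` and the context `(2, 3)` has the selection language
`4* ∪ {0 4^M}`. The words `0 4^i 5^i` belong to the language for all `i`, a word `1 0 4^i 3 5^j`
belongs to it iff `i = j` is a multiple of `p`, and `2 0 4^i 3 5^j` belongs to it iff `i = j = M`.

Consider a grammar with `n`-state selection automata for this language, and the last step of a
derivation of `1 0 4^i 3 5^i`, where `i` is a large multiple of `p`. Either this step inserts
`(4^r, 5^r)` with `r ≥ 1` around a word `4^s 3 5^t`; the automaton does not distinguish it from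
such a word with `s, t ≤ M`, and the context can be applied to `2 0 4^M 3 5^M`, a contradiction.
Or it inserts `(1, 4^a 3 5^a)` around `0 4^s` with `s` large; the automaton does not distinguish it
from `0 4^(s+D)`, and the grammar generates `1 0 4^(i+D) 3 5^(i+D)`, a contradiction.
-/

set_option autoImplicit false

namespace Pool.Agent.Results.MP_47ab97_lc.SuffixClosedSelection

/-- `w` is a word over the finite alphabet `V`. -/
def Over (V : Finset ℕ) (w : List ℕ) : Prop := ∀ a ∈ w, a ∈ V

/-- An internal contextual grammar with selection: a finite list of pairs (selection language,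
finite set of contexts) and a finite set of axioms. -/
structure CG where
  /-- the pairs `(S_i, C_i)` -/
  pairs : List (Set (List ℕ) × Finset (List ℕ × List ℕ))
  /-- the axioms -/
  ax : Finset (List ℕ)

/-- A derivation step `x₁ x₂ x₃ ⇒ x₁ u x₂ v x₃` with `x₂ ∈ S_i` and `(u, v) ∈ C_i`. -/
def Step (G : CG) (x y : List ℕ) : Prop :=
  ∃ SC ∈ G.pairs, ∃ x₁ x₂ x₃ u v : List ℕ, x = x₁ ++ x₂ ++ x₃ ∧ y = x₁ ++ u ++ x₂ ++ v ++ x₃ ∧
    x₂ ∈ SC.1 ∧ (u, v) ∈ SC.2

/-- The generated language. -/
def lang (G : CG) : Set (List ℕ) := {w | ∃ a ∈ G.ax, Relation.ReflTransGen (Step G) a w}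

/-- `IC F L`: some internal contextual grammar over a finite alphabet `V` whose selection languages
all belong to the family `F` (relative to `V`) generates `L`. -/
def IC (F : Finset ℕ → Set (List ℕ) → Prop) (L : Set (List ℕ)) : Prop :=
  ∃ (V : Finset ℕ) (G : CG), (∀ w ∈ G.ax, Over V w) ∧
    (∀ SC ∈ G.pairs, F V SC.1 ∧ ∀ c ∈ SC.2, Over V c.1 ∧ Over V c.2) ∧ L = lang G

/-- `REGZ n V S`: the language `S ⊆ V*` is accepted by a deterministic finite automaton (with total
transition function) with at most `n` states. -/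
def REGZ (n : ℕ) (V : Finset ℕ) (S : Set (List ℕ)) : Prop :=
  ∃ (Z : Type) (_ : Fintype Z) (δ : Z → ℕ → Z) (z₀ : Z) (F : Set Z), Fintype.card Z ≤ n ∧
    S = {w | Over V w ∧ w.foldl δ z₀ ∈ F}

/-- `SUF V S`: the language `S ⊆ V*` is regular and suffix-closed. -/
def SUF (V : Finset ℕ) (S : Set (List ℕ)) : Prop :=
  (∃ n, REGZ n V S) ∧ ∀ x y : List ℕ, x ++ y ∈ S → y ∈ S

/-! ## Iterates of self-maps of small sets -/

lemma iter_period {Z : Type} [Fintype Z] {n : ℕ} (hn : Fintype.card Z ≤ n) (f : Z → Z) (m : ℕ)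
    (hm : n ≤ m) (z : Z) : f^[m + n.factorial] z = f^[m] z := by
  obtain ⟨i, j, hij, h⟩ : ∃ i j : Fin (n + 1), i ≠ j ∧ f^[i.1] z = f^[j.1] z :=
    Fintype.exists_ne_map_eq_of_card_lt (fun i : Fin (n + 1) => f^[i.1] z)
      (by simpa using Nat.lt_succ_of_le hn)
  have key : ∀ i j : ℕ, i < j → j ≤ n → f^[i] z = f^[j] z →
      f^[m + n.factorial] z = f^[m] z := by
    intro i j hij hj h
    have h1 : ∀ k, f^[k + j] z = f^[k + i] z := by
      intro k
      rw [Function.iterate_add_apply, Function.iterate_add_apply, h]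
    have h2 : ∀ q, f^[m + q * (j - i)] z = f^[m] z := by
      intro q
      induction q with
      | zero => simp
      | succ q ih =>
        have e1 : m + (q + 1) * (j - i) = (m + q * (j - i) - i) + j := by
          have : i ≤ m + q * (j - i) := by omega
          rw [Nat.add_mul, one_mul]
          omega
        have e2 : (m + q * (j - i) - i) + i = m + q * (j - i) := by omega
        rw [e1, h1, e2, ih]
    obtain ⟨q, hq⟩ : (j - i) ∣ n.factorial := Nat.dvd_factorial (by omega) (by omega)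
    rw [hq, mul_comm]
    exact h2 q
  rcases lt_or_gt_of_ne (fun e => hij (Fin.ext e) : i.1 ≠ j.1) with hlt | hlt
  · exact key i.1 j.1 hlt (by omega) h
  · exact key j.1 i.1 hlt (by omega) h.symm

lemma iter_small {Z : Type} [Fintype Z] {n : ℕ} (hn : Fintype.card Z ≤ n) (s : ℕ) :
    ∃ s' ≤ n + n.factorial, (0 < s' → 0 < s) ∧ ∀ (f : Z → Z) (z : Z), f^[s] z = f^[s'] z := by
  induction s using Nat.strong_induction_on with
  | _ s ih =>
    rcases le_or_gt s (n + n.factorial) with h | h
    · exact ⟨s, h, id, fun _ _ => rfl⟩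
    · have hf : 0 < n.factorial := Nat.factorial_pos n
      obtain ⟨s', h1, h2, h3⟩ := ih (s - n.factorial) (by omega)
      refine ⟨s', h1, fun h4 => by omega, fun f z => ?_⟩
      rw [← h3 f z]
      have h5 := iter_period hn f (s - n.factorial) (by omega) z
      rwa [Nat.sub_add_cancel (by omega)] at h5

lemma foldl_rep {Z : Type} (δ : Z → ℕ → Z) (a k : ℕ) (z : Z) :
    (List.replicate k a).foldl δ z = (fun q => δ q a)^[k] z := by
  induction k generalizing z with
  | zero => rfl
  | succ k ih => rw [List.replicate_succ, List.foldl_cons, ih, Function.iterate_succ_apply]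

/-! ## The selection languages -/

/-- The alphabet. -/
abbrev V₀ : Finset ℕ := Finset.range 6

/-- Transition function of the automata for the selection languages. -/
def tr {Y : Type} (f : Y → Y) (y₀ : Y) : Option (Option Y) → ℕ → Option (Option Y)
  | none, a => if a = 4 then none else if a = 0 then some (some y₀) else some none
  | some none, _ => some none
  | some (some y), a => if a = 4 then some (some (f y)) else some none

lemma tr_dead {Y : Type} (f : Y → Y) (y₀ : Y) (w : List ℕ) :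
    w.foldl (tr f y₀) (some none) = some none := by
  induction w with
  | nil => rfl
  | cons a w ih => rw [List.foldl_cons]; exact ih

lemma tr_some {Y : Type} (f : Y → Y) (y₀ : Y) (w : List ℕ) (y : Y) :
    w.foldl (tr f y₀) (some (some y)) ≠ none ∧
      (w.foldl (tr f y₀) (some (some y)) = some none ∨ ∀ a ∈ w, a = 4) := by
  induction w generalizing y with
  | nil => simp
  | cons a w ih =>
    rw [List.foldl_cons]
    by_cases ha : a = 4
    · have : tr f y₀ (some (some y)) a = some (some (f y)) := by simp [tr, ha]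
      rw [this]
      refine ⟨(ih _).1, (ih (f y)).2.imp_right fun h => ?_⟩
      simpa [ha] using h
    · have : tr f y₀ (some (some y)) a = some none := by simp [tr, ha]
      rw [this, tr_dead]
      simp

lemma tr_fours {Y : Type} (f : Y → Y) (y₀ : Y) (w : List ℕ) (h : ∀ a ∈ w, a = 4) :
    w.foldl (tr f y₀) none = none := by
  induction w with
  | nil => rfl
  | cons a w ih =>
    rw [List.foldl_cons]
    have : tr f y₀ none a = none := by simp [tr, h a (by simp)]
    rw [this]
    exact ih fun b hb => h b (by simp [hb])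

lemma tr_iter {Y : Type} (f : Y → Y) (y₀ : Y) (k : ℕ) (y : Y) :
    (List.replicate k 4).foldl (tr f y₀) (some (some y)) = some (some (f^[k] y)) := by
  induction k generalizing y with
  | zero => rfl
  | succ k ih =>
    rw [List.replicate_succ, List.foldl_cons]
    have : tr f y₀ (some (some y)) 4 = some (some (f y)) := by simp [tr]
    rw [this, ih, Function.iterate_succ_apply]

lemma sel_exists {Y : Type} [Fintype Y] (P : ℕ → Prop) (f : Y → Y) (y₀ : Y) (Q : Set Y)
    (h : ∀ k, P k ↔ f^[k] y₀ ∈ Q) :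
    ∃ S : Set (List ℕ), SUF V₀ S ∧ ∀ k, 0 :: List.replicate k 4 ∈ S ↔ P k := by
  refine ⟨{w | Over V₀ w ∧ w.foldl (tr f y₀) none ∈
    ({z | z = none ∨ ∃ y ∈ Q, z = some (some y)} : Set (Option (Option Y)))},
    ⟨⟨Fintype.card (Option (Option Y)), Option (Option Y), inferInstance, tr f y₀, none,
      _, le_rfl, rfl⟩, ?_⟩, ?_⟩
  · rintro x y ⟨ho, ha⟩
    refine ⟨fun a hy => ho a (by simp [hy]), ?_⟩
    simp only [List.foldl_append, Set.mem_ofPred_eq] at ha ⊢
    rcases hx : x.foldl (tr f y₀) none with _ | _ | z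
    · rwa [hx] at ha
    · rw [hx, tr_dead] at ha
      simp at ha
    · rw [hx] at ha
      left
      apply tr_fours
      rcases (tr_some f y₀ y z).2 with h2 | h2
      · rw [h2] at ha
        simp at ha
      · exact h2
  · intro k
    rw [h]
    have e : (0 :: List.replicate k 4).foldl (tr f y₀) none = some (some (f^[k] y₀)) := by
      rw [List.foldl_cons]
      have : tr f y₀ none 0 = some (some y₀) := by simp [tr]
      rw [this, tr_iter]
    constructor
    · rintro ⟨-, h2⟩
      rw [e] at h2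
      simpa using h2
    · intro h2
      refine ⟨?_, ?_⟩
      · intro a ha
        simp only [List.mem_cons, List.mem_replicate] at ha
        simp only [Finset.mem_range]
        omega
      · rw [e]
        exact Or.inr ⟨_, h2, rfl⟩

lemma sel_dvd (p : ℕ) (hp : 0 < p) :
    ∃ S : Set (List ℕ), SUF V₀ S ∧ ∀ k, 0 :: List.replicate k 4 ∈ S ↔ p ∣ k := by
  have : NeZero p := ⟨by omega⟩
  refine sel_exists (Y := ZMod p) (fun k => p ∣ k) (fun y => y + 1) 0 {0} fun k => ?_
  have : (fun y : ZMod p => y + 1)^[k] 0 = (k : ZMod p) := by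
    induction k with
    | zero => simp
    | succ k ih => rw [Function.iterate_succ_apply', ih]; push_cast; rfl
  rw [this, Set.mem_singleton_iff, ZMod.natCast_eq_zero_iff]

lemma sel_eq (M : ℕ) :
    ∃ S : Set (List ℕ), SUF V₀ S ∧ ∀ k, 0 :: List.replicate k 4 ∈ S ↔ k = M := by
  refine sel_exists (Y := Fin (M + 2)) (fun k => k = M)
    (fun y => ⟨min (y.1 + 1) (M + 1), by omega⟩) 0 {y | y.1 = M} fun k => ?_
  have : ((fun y : Fin (M + 2) => (⟨min (y.1 + 1) (M + 1), by omega⟩ : Fin (M + 2)))^[k] 0).1 =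
      min k (M + 1) := by
    induction k with
    | zero => simp
    | succ k ih => rw [Function.iterate_succ_apply', ]; simp only [ih]; omega
  rw [Set.mem_ofPred_eq, this]
  omega

/-- Uniqueness of the decomposition at the first letter `c`. -/
lemma cons_inj {c : ℕ} {l r l' r' : List ℕ} (hl : c ∉ l) (hl' : c ∉ l')
    (h : l ++ c :: r = l' ++ c :: r') : l = l' ∧ r = r' := by
  induction l generalizing l' with
  | nil =>
    cases l' with
    | nil => simpa using h
    | cons b l' =>
      simp only [List.nil_append, List.cons_append, List.cons.injEq] at h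
      exact absurd (by simp [h.1]) hl'
  | cons a l ih =>
    cases l' with
    | nil =>
      simp only [List.nil_append, List.cons_append, List.cons.injEq] at h
      exact absurd (by simp [h.1]) hl
    | cons b l' =>
      simp only [List.cons_append, List.cons.injEq] at h
      have := ih (fun e => hl (by simp [e])) (fun e => hl' (by simp [e])) h.2
      exact ⟨by rw [h.1, this.1], this.2⟩

/-! ## The grammar -/

/-- The grammar with the selection languages `S₁`, `S₂`. -/
def G₀ (S₁ S₂ : Set (List ℕ)) : CG where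
  pairs := [({[]}, {([4], [5])}), (S₁, {([1], [3])}), (S₂, {([2], [3])})]
  ax := {[0]}

/-- Powers of a letter. -/
abbrev rep (k a : ℕ) : List ℕ := List.replicate k a

lemma nil_suf : SUF V₀ ({[]} : Set (List ℕ)) := by
  refine ⟨⟨2, Bool, inferInstance, fun _ _ => true, false, {false}, by simp, ?_⟩, ?_⟩
  · ext w
    have ht : ∀ w : List ℕ, w.foldl (fun (_ : Bool) (_ : ℕ) => true) true = true := by
      intro w
      induction w with
      | nil => rfl
      | cons a w ih => simpa using ih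
    cases w with
    | nil => simp [Over]
    | cons a w =>
      simp only [Set.mem_singleton_iff, reduceCtorEq, Set.mem_ofPred_eq, List.foldl_cons, ht,
        Bool.true_eq_false, and_false]
  · intro x y h
    simp only [Set.mem_singleton_iff, List.append_eq_nil_iff] at h ⊢
    exact h.2

lemma mem_IC {S₁ S₂ : Set (List ℕ)} (h₁ : SUF V₀ S₁) (h₂ : SUF V₀ S₂) :
    IC SUF (lang (G₀ S₁ S₂)) := by
  refine ⟨V₀, G₀ S₁ S₂, ?_, ?_, rfl⟩
  · intro w hw
    simp only [G₀, Finset.mem_singleton] at hw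
    subst hw
    intro a ha
    simp at ha
    simp [ha]
  · intro SC hSC
    simp only [G₀, List.mem_cons, List.not_mem_nil, or_false] at hSC
    rcases hSC with rfl | rfl | rfl
    · exact ⟨nil_suf, by simp [Over]⟩
    · exact ⟨h₁, by simp [Over]⟩
    · exact ⟨h₂, by simp [Over]⟩

lemma step_iff {S₁ S₂ : Set (List ℕ)} {x y : List ℕ} : Step (G₀ S₁ S₂) x y ↔
    (∃ x₁ x₃, x = x₁ ++ x₃ ∧ y = x₁ ++ 4 :: 5 :: x₃) ∨
    (∃ x₁ x₂ x₃, x = x₁ ++ x₂ ++ x₃ ∧ y = x₁ ++ 1 :: (x₂ ++ 3 :: x₃) ∧ x₂ ∈ S₁) ∨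
    (∃ x₁ x₂ x₃, x = x₁ ++ x₂ ++ x₃ ∧ y = x₁ ++ 2 :: (x₂ ++ 3 :: x₃) ∧ x₂ ∈ S₂) := by
  constructor
  · rintro ⟨SC, hSC, x₁, x₂, x₃, u, v, hx, hy, h2, huv⟩
    simp only [G₀, List.mem_cons, List.not_mem_nil, or_false] at hSC
    rcases hSC with rfl | rfl | rfl
    · simp only [Set.mem_singleton_iff] at h2
      simp only [Finset.mem_singleton, Prod.mk.injEq] at huv
      left
      exact ⟨x₁, x₃, by simp [hx, h2], by simp [hy, h2, huv]⟩
    · simp only [Finset.mem_singleton, Prod.mk.injEq] at huv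
      right; left
      exact ⟨x₁, x₂, x₃, hx, by simp [hy, huv], h2⟩
    · simp only [Finset.mem_singleton, Prod.mk.injEq] at huv
      right; right
      exact ⟨x₁, x₂, x₃, hx, by simp [hy, huv], h2⟩
  · rintro (⟨x₁, x₃, hx, hy⟩ | ⟨x₁, x₂, x₃, hx, hy, h⟩ | ⟨x₁, x₂, x₃, hx, hy, h⟩)
    · exact ⟨({[]}, {([4], [5])}), by simp [G₀], x₁, [], x₃, [4], [5], by simp [hx], by simp [hy],
        by simp, by simp⟩
    · exact ⟨(S₁, {([1], [3])}), by simp [G₀], x₁, x₂, x₃, [1], [3], by simp [hx], by simp [hy],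
        h, by simp⟩
    · exact ⟨(S₂, {([2], [3])}), by simp [G₀], x₁, x₂, x₃, [2], [3], by simp [hx], by simp [hy],
        h, by simp⟩

lemma counts {S₁ S₂ : Set (List ℕ)} {w : List ℕ} (hw : w ∈ lang (G₀ S₁ S₂)) :
    w.count 0 = 1 ∧ w.count 1 + w.count 2 = w.count 3 ∧ w.count 4 = w.count 5 := by
  obtain ⟨a, ha, h⟩ := hw
  simp only [G₀, Finset.mem_singleton] at ha
  subst ha
  induction h with
  | refl => simp
  | tail _ hs ih =>
    rw [step_iff] at hs
    rcases hs with ⟨x₁, x₃, hx, hy⟩ | ⟨x₁, x₂, x₃, hx, hy, h⟩ | ⟨x₁, x₂, x₃, hx, hy, h⟩ <;>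
    · subst hx hy
      simp only [List.count_append, List.count_cons] at ih ⊢
      simp at ih ⊢
      omega

lemma free_mem (S₁ S₂ : Set (List ℕ)) (i : ℕ) : 0 :: (rep i 4 ++ rep i 5) ∈ lang (G₀ S₁ S₂) := by
  induction i with
  | zero => exact ⟨[0], by simp [G₀], .refl⟩
  | succ i ih =>
    obtain ⟨a, ha, h⟩ := ih
    refine ⟨a, ha, h.tail ?_⟩
    rw [step_iff]
    left
    refine ⟨0 :: rep i 4, rep i 5, by simp, ?_⟩
    rw [rep, rep, List.replicate_succ', List.replicate_succ (a := 5)]
    simp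

lemma one_mem {S₁ S₂ : Set (List ℕ)} {i : ℕ} (h : 0 :: rep i 4 ∈ S₁) :
    1 :: 0 :: (rep i 4 ++ 3 :: rep i 5) ∈ lang (G₀ S₁ S₂) := by
  obtain ⟨a, ha, h1⟩ := free_mem S₁ S₂ i
  refine ⟨a, ha, h1.tail ?_⟩
  rw [step_iff]
  right; left
  exact ⟨[], 0 :: rep i 4, rep i 5, by simp, by simp, h⟩

lemma two_mem {S₁ S₂ : Set (List ℕ)} {i : ℕ} (h : 0 :: rep i 4 ∈ S₂) :
    2 :: 0 :: (rep i 4 ++ 3 :: rep i 5) ∈ lang (G₀ S₁ S₂) := by
  obtain ⟨a, ha, h1⟩ := free_mem S₁ S₂ i
  refine ⟨a, ha, h1.tail ?_⟩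
  rw [step_iff]
  right; right
  exact ⟨[], 0 :: rep i 4, rep i 5, by simp, by simp, h⟩

lemma left_split {c : ℕ} {l r x y : List ℕ} (hl : c ∉ l) (h : l ++ c :: r = x ++ y)
    (hx : c ∈ x) : ∃ B, x = l ++ c :: B ∧ r = B ++ y := by
  obtain ⟨A, B, rfl, hA⟩ := List.eq_append_cons_of_mem hx
  rw [List.append_assoc, List.cons_append] at h
  have h' := cons_inj hl hA h
  exact ⟨B, by rw [h'.1], h'.2⟩

lemma right_split {c : ℕ} {l r x y : List ℕ} (hl : c ∉ l) (hr : c ∉ r)
    (h : l ++ c :: r = x ++ y) (hy : c ∈ y) : ∃ A, y = A ++ c :: r ∧ l = x ++ A := by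
  have hx : c ∉ x := by
    intro hx
    obtain ⟨B, -, hB⟩ := left_split hl h hx
    exact hr (by rw [hB]; simp [hy])
  obtain ⟨A, B, rfl, hA⟩ := List.eq_append_cons_of_mem hy
  rw [← List.append_assoc] at h
  have h' := cons_inj hl (by simp [hx, hA]) h
  exact ⟨A, by rw [h'.2], h'.1⟩

/-- In `b 0 4^i 3 5^j` no `4` is followed by a `5`. -/
lemma no_pair {b i j : ℕ} (hb : b = 1 ∨ b = 2) {x₁ x₃ : List ℕ}
    (h : b :: 0 :: (rep i 4 ++ 3 :: rep j 5) = x₁ ++ 4 :: 5 :: x₃) : False := by
  have h3 : (3 : ℕ) ∈ x₁ ++ 4 :: 5 :: x₃ := by rw [← h]; simp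
  have e : b :: 0 :: (rep i 4 ++ 3 :: rep j 5) = (b :: 0 :: rep i 4) ++ 3 :: rep j 5 := by simp
  rw [e] at h
  have n1 : (3 : ℕ) ∉ b :: 0 :: rep i 4 := by
    simp only [List.mem_cons, List.mem_replicate, not_or]
    omega
  have n2 : (3 : ℕ) ∉ rep j 5 := by simp
  rcases List.mem_append.1 h3 with h3 | h3
  · obtain ⟨B, -, hB⟩ := left_split n1 h h3
    have : (4 : ℕ) ∈ rep j 5 := by rw [hB]; simp
    simp at this
  · obtain ⟨A, hA, hl⟩ := right_split n1 n2 h h3
    have h5 : (5 : ℕ) ∈ A := by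
      rcases A with _ | ⟨a, _ | ⟨a', A⟩⟩
      · simp at hA
      · simp at hA
      · simp only [List.cons_append, List.cons.injEq] at hA
        simp [← hA.2.1]
    have : (5 : ℕ) ∈ b :: 0 :: rep i 4 := by rw [hl]; simp [h5]
    simp only [List.mem_cons, List.mem_replicate] at this
    omega

lemma char_aux {b i j : ℕ} (hb : b = 1 ∨ b = 2) {x₁ x₂ x₃ : List ℕ}
    (h : b :: 0 :: (rep i 4 ++ 3 :: rep j 5) = x₁ ++ b :: (x₂ ++ 3 :: x₃)) :
    x₂ = 0 :: rep i 4 := by
  cases x₁ with
  | nil =>
    simp only [List.nil_append, List.cons.injEq, true_and] at h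
    have e : 0 :: (rep i 4 ++ 3 :: rep j 5) = (0 :: rep i 4) ++ 3 :: rep j 5 := by simp
    rw [e] at h
    have n1 : (3 : ℕ) ∉ 0 :: rep i 4 := by
      simp only [List.mem_cons, List.mem_replicate, not_or]
      omega
    have n3 : (3 : ℕ) ∉ x₂ := by
      intro h3
      obtain ⟨B, -, hB⟩ := left_split n1 h h3
      have : (3 : ℕ) ∈ rep j 5 := by rw [hB]; simp
      simp at this
    exact (cons_inj n1 n3 h).1.symm
  | cons a x₁ =>
    exfalso
    simp only [List.cons_append, List.cons.injEq] at h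
    have : b ∈ 0 :: (rep i 4 ++ 3 :: rep j 5) := by rw [h.2]; simp
    simp only [List.mem_cons, List.mem_append, List.mem_replicate] at this
    omega

lemma one_char {S₁ S₂ : Set (List ℕ)} {i j : ℕ}
    (h : 1 :: 0 :: (rep i 4 ++ 3 :: rep j 5) ∈ lang (G₀ S₁ S₂)) : 0 :: rep i 4 ∈ S₁ := by
  obtain ⟨a, ha, h⟩ := h
  simp only [G₀, Finset.mem_singleton] at ha
  subst ha
  rcases h.cases_tail with h | ⟨x, -, hs⟩
  · simp at h
  rw [step_iff] at hs
  rcases hs with ⟨x₁, x₃, hx, hy⟩ | ⟨x₁, x₂, x₃, hx, hy, h⟩ | ⟨x₁, x₂, x₃, hx, hy, h⟩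
  · exact (no_pair (Or.inl rfl) hy).elim
  · rw [← char_aux (Or.inl rfl) hy]
    exact h
  · have : (2 : ℕ) ∈ 1 :: 0 :: (rep i 4 ++ 3 :: rep j 5) := by rw [hy]; simp
    simp at this

lemma two_char {S₁ S₂ : Set (List ℕ)} {i j : ℕ}
    (h : 2 :: 0 :: (rep i 4 ++ 3 :: rep j 5) ∈ lang (G₀ S₁ S₂)) : 0 :: rep i 4 ∈ S₂ := by
  obtain ⟨a, ha, h⟩ := h
  simp only [G₀, Finset.mem_singleton] at ha
  subst ha
  rcases h.cases_tail with h | ⟨x, -, hs⟩
  · simp at h
  rw [step_iff] at hs
  rcases hs with ⟨x₁, x₃, hx, hy⟩ | ⟨x₁, x₂, x₃, hx, hy, h⟩ | ⟨x₁, x₂, x₃, hx, hy, h⟩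
  · exact (no_pair (Or.inr rfl) hy).elim
  · have : (1 : ℕ) ∈ 2 :: 0 :: (rep i 4 ++ 3 :: rep j 5) := by rw [hy]; simp
    simp at this
  · rw [← char_aux (Or.inr rfl) hy]
    exact h

/-! ## Grammars with small automata -/

lemma last_step (G : CG) {w : List ℕ} (hw : w ∈ lang G) :
    w ∈ G.ax ∨ ∃ x ∈ lang G, Step G x w ∧ x.length < w.length := by
  obtain ⟨a, ha, h⟩ := hw
  induction h with
  | refl => exact Or.inl ha
  | @tail x y hx hs ih =>
    obtain ⟨SC, hSC, x₁, x₂, x₃, u, v, e1, e2, h2, huv⟩ := id hs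
    by_cases hl : x.length < y.length
    · exact Or.inr ⟨x, ⟨a, ha, hx⟩, hs, hl⟩
    · subst e1 e2
      simp only [List.length_append] at hl
      have hu : u = [] := List.length_eq_zero_iff.1 (by omega)
      have hv : v = [] := List.length_eq_zero_iff.1 (by omega)
      subst hu hv
      simpa using ih

lemma exists_bound (G : CG) : ∃ K : ℕ, (∀ w ∈ G.ax, w.length ≤ K) ∧
    ∀ SC ∈ G.pairs, ∀ c ∈ SC.2, c.1.length + c.2.length ≤ K := by
  refine ⟨(∑ w ∈ G.ax, w.length) +
    (G.pairs.map fun SC => ∑ c ∈ SC.2, (c.1.length + c.2.length)).sum, ?_, ?_⟩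
  · intro w hw
    have := Finset.single_le_sum (f := fun w : List ℕ => w.length) (fun _ _ => Nat.zero_le _) hw
    omega
  · intro SC hSC c hc
    have h1 := Finset.single_le_sum (f := fun c : List ℕ × List ℕ => c.1.length + c.2.length)
      (fun _ _ => Nat.zero_le _) hc
    have h2 : (∑ c ∈ SC.2, (c.1.length + c.2.length)) ≤
        (G.pairs.map fun SC => ∑ c ∈ SC.2, (c.1.length + c.2.length)).sum :=
      List.single_le_sum (fun _ _ => Nat.zero_le _) _ (List.mem_map.2 ⟨SC, hSC, rfl⟩)
    omega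

lemma step_mem {G : CG} {SC : Set (List ℕ) × Finset (List ℕ × List ℕ)} (hSC : SC ∈ G.pairs)
    {x₁ x₂ x₃ u v : List ℕ} (h2 : x₂ ∈ SC.1) (huv : (u, v) ∈ SC.2)
    (hx : x₁ ++ x₂ ++ x₃ ∈ lang G) : x₁ ++ u ++ x₂ ++ v ++ x₃ ∈ lang G := by
  obtain ⟨a, ha, h⟩ := hx
  exact ⟨a, ha, h.tail ⟨SC, hSC, x₁, x₂, x₃, u, v, rfl, rfl, h2, huv⟩⟩

/-- The insertion of `(4^r, 5^r)` around `4^s 3 5^t` is impossible for a grammar whose selection
automata have at most `n` states. -/
lemma case_alpha {n : ℕ} {S₁ S₂ : Set (List ℕ)} (G : CG)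
    (h₂ : ∀ k, 0 :: rep k 4 ∈ S₂ ↔ k = n + n.factorial) (hG : lang (G₀ S₁ S₂) = lang G)
    {V : Finset ℕ} {SC : Set (List ℕ) × Finset (List ℕ × List ℕ)} (hSC : SC ∈ G.pairs)
    (hreg : REGZ n V SC.1) {r s t : ℕ} (hr : 0 < r)
    (hx : rep s 4 ++ 3 :: rep t 5 ∈ SC.1) (huv : (rep r 4, rep r 5) ∈ SC.2) : False := by
  obtain ⟨Z, _, δ, z₀, F, hn, hS⟩ := hreg
  obtain ⟨s', hs', hs0, hs⟩ := iter_small hn s
  obtain ⟨t', ht', ht0, ht⟩ := iter_small hn t
  have hx' : rep s' 4 ++ 3 :: rep t' 5 ∈ SC.1 := by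
    rw [hS] at hx ⊢
    refine ⟨?_, ?_⟩
    · intro a ha
      apply hx.1
      simp only [List.mem_append, List.mem_cons, List.mem_replicate] at ha ⊢
      rcases ha with ⟨h1, h2⟩ | h1 | ⟨h1, h2⟩
      · exact Or.inl ⟨by omega, h2⟩
      · exact Or.inr (Or.inl h1)
      · exact Or.inr (Or.inr ⟨by omega, h2⟩)
    · have h2 := hx.2
      rw [List.foldl_append, List.foldl_cons, foldl_rep, foldl_rep] at h2 ⊢
      rwa [← hs, ← ht]
  set M := n + n.factorial with hM
  have h3 : 2 :: 0 :: (rep M 4 ++ 3 :: rep M 5) ∈ lang G := by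
    rw [← hG]
    exact two_mem ((h₂ M).2 rfl)
  have h4 : (2 :: 0 :: rep (M - s') 4) ++ (rep s' 4 ++ 3 :: rep t' 5) ++ rep (M - t') 5 ∈
      lang G := by
    have e1 : rep (M - s') 4 ++ rep s' 4 = rep M 4 := by
      rw [rep, rep, ← List.replicate_add]
      congr 1
      omega
    have e2 : rep t' 5 ++ rep (M - t') 5 = rep M 5 := by
      rw [rep, rep, ← List.replicate_add]
      congr 1
      omega
    have : (2 :: 0 :: rep (M - s') 4) ++ (rep s' 4 ++ 3 :: rep t' 5) ++ rep (M - t') 5 =
        2 :: 0 :: ((rep (M - s') 4 ++ rep s' 4) ++ 3 :: (rep t' 5 ++ rep (M - t') 5)) := by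
      simp only [List.append_assoc, List.cons_append]
    rw [this, e1, e2]
    exact h3
  have h5 := step_mem hSC hx' huv h4
  have e3 : rep (M - s') 4 ++ rep r 4 ++ rep s' 4 = rep (M + r) 4 := by
    rw [rep, rep, rep, ← List.replicate_add, ← List.replicate_add]
    congr 1
    omega
  have e4 : rep t' 5 ++ rep r 5 ++ rep (M - t') 5 = rep (M + r) 5 := by
    rw [rep, rep, rep, ← List.replicate_add, ← List.replicate_add]
    congr 1
    omega
  have e5 : (2 :: 0 :: rep (M - s') 4) ++ rep r 4 ++ (rep s' 4 ++ 3 :: rep t' 5) ++ rep r 5 ++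
      rep (M - t') 5 = 2 :: 0 :: ((rep (M - s') 4 ++ rep r 4 ++ rep s' 4) ++
        3 :: (rep t' 5 ++ rep r 5 ++ rep (M - t') 5)) := by
    simp only [List.append_assoc, List.cons_append]
  rw [e5, e3, e4, ← hG] at h5
  have := (h₂ (M + r)).1 (two_char h5)
  omega

/-- The insertion of `(1, 4^a 3 5^a)` around a long word `0 4^s` is impossible for a grammar whose
selection automata have at most `n` states. -/
lemma case_beta {n : ℕ} {S₁ S₂ : Set (List ℕ)} (G : CG)
    (h₁ : ∀ k, 0 :: rep k 4 ∈ S₁ ↔ n.factorial + 1 ∣ k) (hG : lang (G₀ S₁ S₂) = lang G)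
    {V : Finset ℕ} {SC : Set (List ℕ) × Finset (List ℕ × List ℕ)} (hSC : SC ∈ G.pairs)
    (hreg : REGZ n V SC.1) {a b s : ℕ} (hs : n < s) (hd : n.factorial + 1 ∣ s + a)
    (hx : 0 :: rep s 4 ∈ SC.1) (huv : ([1], rep a 4 ++ 3 :: rep b 5) ∈ SC.2) : False := by
  obtain ⟨Z, _, δ, z₀, F, hn, hS⟩ := hreg
  have hx' : 0 :: rep (s + n.factorial) 4 ∈ SC.1 := by
    rw [hS] at hx ⊢
    refine ⟨?_, ?_⟩
    · intro c hc
      apply hx.1
      simp only [List.mem_cons, List.mem_replicate] at hc ⊢
      rcases hc with hc | ⟨-, hc⟩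
      · exact Or.inl hc
      · exact Or.inr ⟨by omega, hc⟩
    · have h2 := hx.2
      rw [List.foldl_cons, foldl_rep] at h2 ⊢
      rwa [iter_period hn _ s hs.le]
  have h3 : [] ++ (0 :: rep (s + n.factorial) 4) ++ rep (s + n.factorial) 5 ∈ lang G := by
    rw [← hG]
    simpa using free_mem S₁ S₂ (s + n.factorial)
  have h5 := step_mem hSC hx' huv h3
  have e3 : rep (s + n.factorial) 4 ++ rep a 4 = rep (s + n.factorial + a) 4 := by
    rw [rep, rep, ← List.replicate_add]
  have e4 : rep b 5 ++ rep (s + n.factorial) 5 = rep (b + (s + n.factorial)) 5 := by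
    rw [rep, rep, ← List.replicate_add]
  have e5 : [] ++ [1] ++ (0 :: rep (s + n.factorial) 4) ++ (rep a 4 ++ 3 :: rep b 5) ++
      rep (s + n.factorial) 5 = 1 :: 0 :: ((rep (s + n.factorial) 4 ++ rep a 4) ++
        3 :: (rep b 5 ++ rep (s + n.factorial) 5)) := by
    simp only [List.append_assoc, List.cons_append, List.nil_append]
  rw [e5, e3, e4, ← hG] at h5
  have h6 := (h₁ _).1 (one_char h5)
  have h7 : n.factorial + 1 ∣ n.factorial := by
    have e : s + n.factorial + a = (s + a) + n.factorial := by ring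
    rw [e] at h6
    exact (Nat.dvd_add_right hd).1 h6
  have h8 := Nat.le_of_dvd (Nat.factorial_pos n) h7
  omega

lemma rep_parts {c m : ℕ} {A B : List ℕ} (h : rep m c = A ++ B) :
    A = rep A.length c ∧ B = rep B.length c ∧ A.length + B.length = m := by
  have := (List.append_eq_replicate_iff.1 h.symm)
  exact ⟨this.2.1, this.2.2, this.1⟩

lemma count_zero_of {c m : ℕ} {l : List ℕ} (h : l = rep m c) {d : ℕ} (hd : d ≠ c) :
    l.count d = 0 := by
  rw [h, List.count_replicate]
  simp [Ne.symm hd]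

lemma main {n : ℕ} {S₁ S₂ : Set (List ℕ)}
    (h₁ : ∀ k, 0 :: rep k 4 ∈ S₁ ↔ n.factorial + 1 ∣ k)
    (h₂ : ∀ k, 0 :: rep k 4 ∈ S₂ ↔ k = n + n.factorial) :
    ¬ IC (REGZ n) (lang (G₀ S₁ S₂)) := by
  rintro ⟨V, G, -, hpairs, hG⟩
  obtain ⟨K, hK1, hK2⟩ := exists_bound G
  obtain ⟨i, hi⟩ : ∃ i, i = (n.factorial + 1) * (K + n + 1) := ⟨_, rfl⟩
  have hi' : K + n + 1 ≤ i := by rw [hi]; exact Nat.le_mul_of_pos_left _ (by omega)
  have hW : 1 :: 0 :: (rep i 4 ++ 3 :: rep i 5) ∈ lang G := by
    rw [← hG]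
    exact one_mem ((h₁ i).2 ⟨_, hi⟩)
  rcases last_step G hW with hax | ⟨x, hx, ⟨SC, hSC, x₁, x₂, x₃, u, v, ex, eW, h2, huv⟩, hlen⟩
  · have := hK1 _ hax
    simp only [List.length_cons, List.length_append, List.length_replicate] at this
    omega
  obtain ⟨hreg, -⟩ := hpairs SC hSC
  have hKuv : u.length + v.length ≤ K := hK2 SC hSC _ huv
  -- counts
  obtain ⟨c0, c13, c45⟩ := counts (S₁ := S₁) (S₂ := S₂) (w := x) (by rw [hG]; exact hx)
  have hlen' : 0 < u.length + v.length := by
    rw [eW, ex] at hlen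
    simp only [List.length_append] at hlen
    omega
  have cW : ∀ c, (1 :: 0 :: (rep i 4 ++ 3 :: rep i 5) : List ℕ).count c =
      x.count c + (u.count c + v.count c) := by
    intro c
    rw [eW, ex]
    simp only [List.count_append]
    omega
  have w0 := cW 0
  have w1 := cW 1
  have w2 := cW 2
  have w3 := cW 3
  have w4 := cW 4
  have w5 := cW 5
  simp [List.count_append, List.count_replicate] at w0 w1 w2 w3 w4 w5
  have u0 : u.count 0 = 0 := by omega
  have v0 : v.count 0 = 0 := by omega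
  have uv13 : u.count 1 + v.count 1 = u.count 3 + v.count 3 := by omega
  have uv45 : u.count 4 + v.count 4 = u.count 5 + v.count 5 := by omega
  clear w0 w1 w2 w3 w4 w5 cW c0 c13 c45
  have e : 1 :: 0 :: (rep i 4 ++ 3 :: rep i 5) = (1 :: 0 :: rep i 4) ++ 3 :: rep i 5 := by simp
  rw [e] at eW
  have n1 : (3 : ℕ) ∉ 1 :: 0 :: rep i 4 := by simp
  have hfive : ∀ {l : List ℕ}, l = rep l.length 5 → l.count 5 = l.length := by
    intro l hl
    conv_lhs => rw [hl]
    simp
  have hfour : ∀ {l : List ℕ}, l = rep l.length 4 → l.count 4 = l.length := by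
    intro l hl
    conv_lhs => rw [hl]
    simp
  have hnil : ∀ {l : List ℕ}, l.length = 0 → l = [] := fun h => List.length_eq_zero_iff.1 h
  by_cases m1 : (3 : ℕ) ∈ x₁
  · obtain ⟨B, -, hB⟩ := left_split (y := u ++ x₂ ++ v ++ x₃) n1 (by simpa using eW) m1
    obtain ⟨-, hB2, -⟩ := rep_parts hB
    obtain ⟨hu, hB3, -⟩ := rep_parts (A := u) (B := x₂ ++ v ++ x₃) (by rw [← hB2]; simp)
    obtain ⟨-, hB4, -⟩ := rep_parts (A := x₂) (B := v ++ x₃) (by rw [← hB3]; simp)
    obtain ⟨hv, -, -⟩ := rep_parts (A := v) (B := x₃) (by rw [← hB4])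
    have e1 := hfive hu
    have e2 := hfive hv
    have e3 := count_zero_of hu (d := 4) (by norm_num)
    have e4 := count_zero_of hv (d := 4) (by norm_num)
    omega
  by_cases m2 : (3 : ℕ) ∈ u
  · obtain ⟨B, hB1, hB⟩ := left_split (x := x₁ ++ u) (y := x₂ ++ v ++ x₃) n1
      (by simpa using eW) (by simp [m2])
    obtain ⟨-, hB3, -⟩ := rep_parts hB
    obtain ⟨-, hB4, -⟩ := rep_parts (A := x₂) (B := v ++ x₃) (by rw [← hB3]; simp)
    obtain ⟨hv, -, -⟩ := rep_parts (A := v) (B := x₃) (by rw [← hB4])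
    have e2 := count_zero_of hv (d := 1) (by norm_num)
    have e3 := List.count_pos_iff.2 m2
    have hv5 := hfive hv
    have hB5 : B = rep B.length 5 := (rep_parts hB).1
    have e4 : u.count 1 ≠ 0 := by omega
    rcases x₁ with _ | ⟨a, x₁⟩
    · rcases u with _ | ⟨a, _ | ⟨b, u⟩⟩
      · simp at m2
      · simp at hB1
      · simp only [List.nil_append, List.cons_append, List.cons.injEq] at hB1
        rw [← List.count_pos_iff.not, not_lt, Nat.le_zero] at m1
        have : (0 : ℕ) ∈ a :: b :: u := by simp [hB1.2.1]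
        have := List.count_pos_iff.2 this
        omega
    · simp only [List.cons_append, List.cons.injEq] at hB1
      have h1 : (1 : ℕ) ∈ x₁ ++ u := by
        simp only [List.mem_append]
        right
        exact List.count_pos_iff.1 (by omega)
      rw [hB1.2] at h1
      simp only [List.mem_cons, List.mem_append, List.mem_replicate] at h1
      rw [hB5] at h1
      simp at h1
  have u3 : u.count 3 = 0 := List.count_eq_zero_of_not_mem m2
  by_cases m3 : (3 : ℕ) ∈ x₂
  · obtain ⟨A, B, rfl, hA⟩ := List.eq_append_cons_of_mem m3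
    obtain ⟨hL, hR⟩ := cons_inj (l := 1 :: 0 :: rep i 4) (r := rep i 5) (l' := x₁ ++ u ++ A)
      (r' := B ++ (v ++ x₃)) n1 (by simp [m1, m2, hA]) (by simpa using eW)
    obtain ⟨hB, hR2, -⟩ := rep_parts hR
    obtain ⟨hv, -, -⟩ := rep_parts hR2.symm
    have e1 := count_zero_of hv (d := 1) (by norm_num)
    have e3 := count_zero_of hv (d := 3) (by norm_num)
    have e4 := count_zero_of hv (d := 4) (by norm_num)
    have e5 := hfive hv
    have u1 : u.count 1 = 0 := by omega
    rcases x₁ with _ | ⟨a, _ | ⟨b, x₁⟩⟩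
    · rcases u with _ | ⟨a, u⟩
      · simp at uv45 hlen'
        have := hnil (l := v) (by omega)
        simp [this] at hlen'
      · simp only [List.nil_append, List.cons_append, List.cons.injEq] at hL
        rw [← hL.1] at u1
        simp at u1
    · rcases u with _ | ⟨a, u⟩
      · simp at uv45 hlen'
        have := hnil (l := v) (by omega)
        simp [this] at hlen'
      · simp only [List.nil_append, List.cons_append, List.cons.injEq] at hL
        rw [← hL.2.1] at u0
        simp at u0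
    · simp only [List.cons_append, List.cons.injEq] at hL
      obtain ⟨-, -, hL⟩ := hL
      obtain ⟨hL1, hA2, -⟩ := rep_parts hL
      obtain ⟨-, hu, -⟩ := rep_parts hL1.symm
      have f5 := count_zero_of hu (d := 5) (by norm_num)
      have f4 := hfour hu
      have hr : u.length = v.length := by omega
      rw [hA2, hB] at h2
      rw [hu, hv, ← hr] at huv
      exact case_alpha G h₂ hG hSC hreg (r := u.length) (by omega) h2 huv
  by_cases m4 : (3 : ℕ) ∈ v
  · obtain ⟨A, B, rfl, hA⟩ := List.eq_append_cons_of_mem m4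
    obtain ⟨hL, hR⟩ := cons_inj (l := 1 :: 0 :: rep i 4) (r := rep i 5)
      (l' := x₁ ++ (u ++ (x₂ ++ A))) (r' := B ++ x₃) n1 (by simp [m1, m2, m3, hA])
      (by simpa using eW)
    obtain ⟨hB, -, -⟩ := rep_parts hR
    have e1 := count_zero_of hB (d := 1) (by norm_num)
    have hone : ∀ {l m : List ℕ}, 0 :: rep i 4 = l ++ m → l.count 1 = 0 ∧ m.count 1 = 0 := by
      intro l m h
      have : (0 :: rep i 4 : List ℕ).count 1 = 0 := by
        simp [List.count_replicate]
      rw [h, List.count_append] at this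
      omega
    have v3 : 0 < (A ++ 3 :: B).count 3 := List.count_pos_iff.2 (by simp)
    have v1 : (A ++ 3 :: B).count 1 = A.count 1 := by
      simp [List.count_append, e1]
    have v0' : A.count 0 = 0 := by
      simp only [List.count_append] at v0
      omega
    rcases x₁ with _ | ⟨a, x₁⟩
    · rcases u with _ | ⟨a, _ | ⟨b, u⟩⟩
      · rcases x₂ with _ | ⟨a, x₂⟩
        · simp only [List.nil_append] at hL
          rw [← hL] at v0'
          simp at v0'
        · simp only [List.nil_append, List.cons_append, List.cons.injEq] at hL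
          have h1 := (hone hL.2).2
          simp only [List.count_nil] at uv13
          omega
      · simp only [List.nil_append, List.cons_append, List.cons.injEq] at hL
        obtain ⟨rfl, hL⟩ := hL
        rcases x₂ with _ | ⟨b, x₂⟩
        · simp only [List.nil_append] at hL
          rw [← hL] at v0'
          simp at v0'
        · simp only [List.cons_append, List.cons.injEq] at hL
          obtain ⟨rfl, hL⟩ := hL
          obtain ⟨hx2, hA2, hs⟩ := rep_parts hL
          rw [hx2] at h2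
          rw [hA2, hB] at huv
          simp only [List.length_append, List.length_cons] at hKuv
          exact case_beta G h₁ hG hSC hreg (by omega) (by rw [hs, hi]; exact ⟨_, rfl⟩) h2 huv
      · simp only [List.nil_append, List.cons_append, List.cons.injEq] at hL
        have : (0 : ℕ) ∈ a :: b :: u := by simp [hL.2.1]
        have := List.count_pos_iff.2 this
        omega
    · simp only [List.cons_append, List.cons.injEq] at hL
      have h1 := (hone hL.2).2
      simp only [List.count_append] at h1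
      omega
  · have v3 : v.count 3 = 0 := List.count_eq_zero_of_not_mem m4
    by_cases m5 : (3 : ℕ) ∈ x₃
    · obtain ⟨A, B, rfl, hA⟩ := List.eq_append_cons_of_mem m5
      obtain ⟨hL, hR⟩ := cons_inj (l := 1 :: 0 :: rep i 4) (r := rep i 5)
        (l' := x₁ ++ u ++ x₂ ++ v ++ A) (r' := B) n1 (by simp [m1, m2, m3, m4, hA])
        (by simpa using eW)
      have h5 : (1 :: 0 :: rep i 4 : List ℕ).count 5 = 0 := by simp [List.count_replicate]
      rw [hL] at h5
      simp only [List.count_append] at h5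
      have key : ∀ {l : List ℕ}, (∀ a ∈ l, a ∈ x₁ ++ u ++ x₂ ++ v ++ A) → l.count 0 = 0 →
          l.count 1 = 0 → l.count 4 = 0 → l.length = 0 := by
        intro l hl k0 k1 k4
        rcases l with _ | ⟨a, l⟩
        · rfl
        · have ha := hl a (by simp)
          rw [← hL] at ha
          simp only [List.mem_cons, List.mem_replicate] at ha
          rcases ha with rfl | rfl | ⟨-, rfl⟩
          · simp at k1
          · simp at k0
          · simp at k4
      have ku := key (l := u) (fun a ha => by simp [ha]) u0 (by omega) (by omega)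
      have kv := key (l := v) (fun a ha => by simp [ha]) v0 (by omega) (by omega)
      omega
    · have : (3 : ℕ) ∈ x₁ ++ u ++ x₂ ++ v ++ x₃ := by rw [← eW]; simp
      simp [m1, m2, m3, m4, m5] at this

/-- For every `n` there is a language in `IC(SUF)` which is not in `IC(REG_n^Z)`. -/
theorem result : ∀ n : ℕ, ∃ L : Set (List ℕ), IC SUF L ∧ ¬ IC (REGZ n) L := by
  intro n
  obtain ⟨S₁, hS₁, h₁⟩ := sel_dvd (n.factorial + 1) (by omega)
  obtain ⟨S₂, hS₂, h₂⟩ := sel_eq (n + n.factorial)
  exact ⟨lang (G₀ S₁ S₂), mem_IC hS₁ hS₂, main h₁ h₂⟩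

end Pool.Agent.Results.MP_47ab97_lc.SuffixClosedSelection
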